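import Pool.Agent.Helper32.OIP.Goals

/-!
# Packet O7: covering and smallness of `GA`
-/

set_option autoImplicit false

open MeasureTheory
open scoped ENNReal

namespace Pool.Agent.Helper2.OIP

open Pool.Agent.Helper32.OIP Pool.Agent.Helper58.Orb

theorem bl_finite {A : Type} [Group A] {S : Set A} {D : Type} [Fintype D] (T : TreeData A S D)
    (m : ℕ) : (bl T m).Finite := by
  classical
  refine Set.Finite.subset ((Finset.range (m + 1)).biUnion fun k => T.sph k).finite_toSet ?_
  intro a ha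
  rw [Finset.mem_coe, Finset.mem_biUnion]
  exact ⟨T.len a, Finset.mem_range.2 (Nat.lt_succ_of_le ha), T.mem_sph.2 rfl⟩

theorem fs_mp (hMA1 : GoalMA1) (hS0 : GoalS0) (C : Type) {q : ℝ} (h0 : 0 ≤ q) (h1 : q ≤ 1) :
    MeasurePreserving (fs : (C → E0) → Bern C) (pm C (nu q)) (bern C) := by
  obtain ⟨i1, i2, _, _⟩ := (hS0 hMA1).1 q h0 h1
  haveI := i1
  haveI := i2
  have h : MeasurePreserving (Prod.fst : E0 → unitInterval) (nu q) volume :=
    measurePreserving_fst
  exact hMA1.1 C E0 unitInterval (nu q) volume (fun _ => Prod.fst) fun _ => h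

theorem measurable_fs (C : Type) : Measurable (fs : (C → E0) → Bern C) := by
  rw [measurable_pi_iff]
  intro a
  exact measurable_fst.comp (measurable_pi_apply a)

theorem bit_prob (hMA1 : GoalMA1) (hS0 : GoalS0) (C : Type) (a : C) {q : ℝ} (h0 : 0 ≤ q)
    (h1 : q ≤ 1) : (pm C (nu q)).real {z | (z a).2.1 = true} = 1 - q := by
  obtain ⟨i1, i2, _, _⟩ := (hS0 hMA1).1 q h0 h1
  haveI := i1
  haveI := i2
  have e1 : MeasurePreserving (fun z : C → E0 => z a) (pm C (nu q)) (nu q) :=
    measurePreserving_eval_infinitePi (fun _ : C => nu q) a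
  have e2 : MeasurePreserving (Prod.snd : E0 → Nz) (nu q) (nz q) := measurePreserving_snd
  have e3 : MeasurePreserving (Prod.fst : Nz → Bool) (nz q) (ber q) := by
    unfold nz
    exact measurePreserving_fst
  have e := e3.comp (e2.comp e1)
  have e4 := e.measureReal_preimage (s := {true}) (measurableSet_singleton true).nullMeasurableSet
  have e5 : ((Prod.fst : Nz → Bool) ∘ (Prod.snd : E0 → Nz) ∘ fun z : C → E0 => z a) ⁻¹' {true} =
      {z | (z a).2.1 = true} := rfl
  rw [e5] at e4
  rw [e4]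
  unfold ber
  rw [measureReal_def, Measure.add_apply, Measure.smul_apply, Measure.smul_apply,
    Measure.dirac_apply' _ (measurableSet_singleton true),
    Measure.dirac_apply' _ (measurableSet_singleton true)]
  simp [sub_nonneg.2 h1]

theorem o7 : GoalO7 := by
  intro hR0 hO1 hO2 hO3 hO4 hMA1 hMA2 hS0 A B _ _ _ _ S S' D L _ _ _ T T' e₀ Φ Ψ α m hI hα hdep
  classical
  set κ : Bern B → (L ≃ D) := lab T' T e₀.symm Ψ with hκ
  have hΦm : Measurable Φ := hI.isoL.measurePreserving.measurable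
  have hκm : ∀ f₀, MeasurableSet {y | κ y = f₀} :=
    (hO1 B A S' S L D T' T e₀.symm Ψ hI.isoR).2.2
  have hne : MeasurableSet {y | κ y ≠ α y} := by
    have : {y | κ y ≠ α y} = (⋃ f : L ≃ D, ({y | κ y = f} ∩ {y | α y = f}))ᶜ := by
      ext y
      simp only [Set.mem_setOf_eq, Set.mem_compl_iff, Set.mem_iUnion, Set.mem_inter_iff, not_exists]
      constructor
      · intro h f hf
        exact h (hf.1.trans hf.2.symm)
      · intro h h'
        exact h (κ y) ⟨rfl, h'.symm⟩
    rw [this]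
    exact (MeasurableSet.iUnion fun f => (hκm f).inter (hα f)).compl
  have hbit : ∀ a : A, MeasurableSet {z : A → E0 | (z a).2.1 = true} := by
    intro a
    have : Measurable fun z : A → E0 => (z a).2.1 :=
      measurable_fst.comp (measurable_snd.comp (measurable_pi_apply a))
    exact this (measurableSet_singleton true)
  have hfin := bl_finite T m
  have hset1 : MeasurableSet {z : A → E0 | κ (Φ (fs z)) ≠ α (Φ (fs z))} :=
    (hΦm.comp (measurable_fs A)) hne
  have hGA : GA T T' e₀ Φ Ψ α m = {z : A → E0 | κ (Φ (fs z)) ≠ α (Φ (fs z))} ∪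
      ⋃ a ∈ hfin.toFinset, {z : A → E0 | (z a).2.1 = true} := by
    ext z
    simp only [GA, Set.mem_setOf_eq, Set.mem_union, Set.mem_iUnion, Set.Finite.mem_toFinset,
      exists_prop, hκ]
  refine ⟨?_, hfin, ?_⟩
  · rw [hGA]
    exact hset1.union (Finset.measurableSet_biUnion _ fun a _ => hbit a)
  intro q h0 h1
  obtain ⟨i1, i2, _, i4⟩ := (hS0 hMA1).1 q h0 h1
  haveI := i1
  haveI := i2
  have hpm : IsProbabilityMeasure (pm A (nu q)) := by unfold pm; infer_instance
  have hfsA := fs_mp hMA1 hS0 A h0 h1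
  have hfsB := fs_mp hMA1 hS0 B h0 h1
  have hO2' := hO2 hR0 hO1 A B S S' D L T T' e₀ Φ hI.isoL
  have hO3' := hO3 hR0 hO1 (hO2) A B S S' D L T T' e₀ Φ Ψ hI
  have hTh : MeasurePreserving (Th Φ : (A → E0) → (B → E0)) (pm A (nu q)) (pm B (nu q)) :=
    hO4 hMA1 hMA2 A B Nz (nz q) Φ hI.isoL.measurePreserving (hO2'.2.1.mono fun x hx => hx.1)
      hO2'.2.2
  constructor
  · have a1 : ∀ᵐ z ∂(pm A (nu q)), Φ (Ψ (fs (Jb (Th Φ z)))) = fs (Jb (Th Φ z)) :=
      (hfsB.comp ((i4 B).comp hTh)).quasiMeasurePreserving.ae hI.right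
    have a2 : ∀ᵐ z ∂(pm A (nu q)), κ (Φ (fs z)) = (lab T T' e₀ Φ (fs z)).symm :=
      hfsA.quasiMeasurePreserving.ae hO3'.1
    have a3 : ∀ᵐ z ∂(pm A (nu q)), ∀ b, T.len (rd Φ (fs z) b) = T'.len b :=
      hfsA.quasiMeasurePreserving.ae (hO2'.2.1.mono fun x hx => hx.2)
    filter_upwards [a1, a2, a3] with z z1 z2 z3 hz
    by_contra hcon
    rw [not_or] at hcon
    obtain ⟨c1, c2⟩ := hcon
    simp only [GA, Set.mem_setOf_eq, not_or, not_exists, not_and, ne_eq, not_not] at c1 c2
    apply hz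
    set y' : Bern B := fs (Jb (Th Φ z)) with hy'
    have hJ : fs (JA Φ Ψ z) = Ψ y' := rfl
    have d1 : κ y' = α y' := by
      have := c2.1
      rw [hJ, z1] at this
      exact this
    have d2 : α y' = α (Φ (fs z)) := by
      apply hdep
      intro b hb
      have e1 : rd Φ (fs z) b ∈ bl T m := by
        show T.len (rd Φ (fs z) b) ≤ m
        rw [z3 b]
        exact hb
      have e2 := c1.2 _ e1
      have e3 : (Th Φ z b).2.1 = (z (rd Φ (fs z) b)).2.1 := rfl
      show (jn (Th Φ z b)).1 = Φ (fs z) b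
      unfold jn
      rw [e3, if_neg e2]
      rfl
    have d3 : κ y' = (lab T T' e₀ Φ (fs z)).symm := by
      rw [d1, d2, ← c1.1]
      exact z2
    show (lab T T' e₀ Φ (fs z)).trans (κ y') = 1
    rw [d3, Equiv.self_trans_symm]
    rfl
  · rw [hGA]
    refine (measureReal_union_le _ _).trans ?_
    refine add_le_add ?_ ?_
    · have e := hI.isoL.measurePreserving.comp hfsA
      have := e.measureReal_preimage hne.nullMeasurableSet
      exact le_of_eq this
    · refine (measureReal_biUnion_finset_le _ _).trans ?_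
      rw [Finset.sum_congr rfl fun a _ => bit_prob hMA1 hS0 A a h0 h1, Finset.sum_const,
        nsmul_eq_mul, Set.ncard_eq_toFinset_card _ hfin]

end Pool.Agent.Helper2.OIP
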